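import Pool.Agent.Helper79.Alpha

set_option autoImplicit false

namespace Pool.Agent.Results.MP_ea94f4_co.SignedEvaluation

open Helper79

/-- For every `n` there is a unique polynomial `α(n; k₁, …, kₙ)` whose value at every strictly
increasing integer tuple is the (finite) number of monotone triangles with that bottom row, and
`α(n; 1, …, n) = (-1)^n α(2n+1; 1, …, n+1, 1, …, n)` for all `n ≥ 1`. -/
theorem result :
    (∀ (n : ℕ) (k : Fin n → ℤ), StrictMono k → (MonotoneTriangles n k).Finite) ∧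
    (∀ n : ℕ, ∃! P : MvPolynomial (Fin n) ℚ, IsAlpha n P) ∧
    ∀ n : ℕ, 1 ≤ n → ∀ (P : MvPolynomial (Fin n) ℚ) (Q : MvPolynomial (Fin (2 * n + 1)) ℚ),
      IsAlpha n P → IsAlpha (2 * n + 1) Q →
        MvPolynomial.eval (fun i => (i.val : ℚ) + 1) P =
          (-1) ^ n * MvPolynomial.eval
            (fun i => if i.val ≤ n then (i.val : ℚ) + 1 else (i.val : ℚ) - n) Q := by
  refine ⟨MT_finite, fun n => ⟨alphaP n, alphaP_isAlpha n, fun P hP =>
    isAlpha_unique hP (alphaP_isAlpha n)⟩, ?_⟩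
  intro n _ P Q hP hQ
  rw [isAlpha_unique hP (alphaP_isAlpha n), isAlpha_unique hQ (alphaP_isAlpha (2 * n + 1))]
  exact alphaP_signed n

end Pool.Agent.Results.MP_ea94f4_co.SignedEvaluation
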